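import Pool.Agent.helper71.FT.Spec

/-!
# Row ft:PGF (MP_07c750_an, project FT): porosity of the forward sets at most scales
-/

open scoped MatrixGroups ContDiff Topology UpperHalfPlane ComplexConjugate
open UpperHalfPlane MeasureTheory Filter Set

set_option autoImplicit false

namespace Pool.Agent.FT

open Pool.Agent.RS
open Pool.Agent.MS (bq BB BA SF pf)
open Pool.Agent.EN (XG MG mkX mkM fl pr)
open Pool.Agent.FS (tp)

noncomputable section

theorem PGF_aM (s t : ℝ) : aM (s + t) = aM s * aM t := by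
  apply Subtype.ext
  rw [Matrix.SpecialLinearGroup.coe_mul]
  show !![Real.exp ((s + t) / 2), 0; 0, Real.exp (-((s + t) / 2))] =
    !![Real.exp (s / 2), 0; 0, Real.exp (-(s / 2))] * !![Real.exp (t / 2), 0; 0, Real.exp (-(t / 2))]
  rw [Matrix.mul_fin_two]
  have e1 : Real.exp ((s + t) / 2) = Real.exp (s / 2) * Real.exp (t / 2) := by
    rw [← Real.exp_add]; congr 1; ring
  have e2 : Real.exp (-((s + t) / 2)) = Real.exp (-(s / 2)) * Real.exp (-(t / 2)) := by
    rw [← Real.exp_add]; congr 1; ring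
  rw [e1, e2]
  simp

theorem PGF_lM : lM 0 = 1 := by
  apply Subtype.ext
  rw [Matrix.SpecialLinearGroup.coe_one, Matrix.one_fin_two]
  rfl

/-- the bad scales -/
def PGF_B (T n : ℕ) (S : Finset ℕ) : Finset ℕ :=
  (Finset.Ico (n - (T + 1)) n) ∪ S.biUnion fun i => Finset.Icc (i - (T + 1)) i

theorem PGF_card (T n m : ℕ) (S : Finset ℕ) (hS : S.card ≤ m) :
    (PGF_B T n S).card ≤ (T + 2) * (m + 1) := by
  unfold PGF_B
  have h1 : (Finset.Ico (n - (T + 1)) n).card ≤ T + 2 := by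
    rw [Nat.card_Ico]; omega
  have h2 : (S.biUnion fun i => Finset.Icc (i - (T + 1)) i).card ≤ S.card * (T + 2) := by
    apply Finset.card_biUnion_le_card_mul
    intro i _
    rw [Nat.card_Icc]
    omega
  have h3 := Finset.card_union_le (Finset.Ico (n - (T + 1)) n) (S.biUnion fun i => Finset.Icc (i - (T + 1)) i)
  have h4 : S.card * (T + 2) ≤ m * (T + 2) := Nat.mul_le_mul_right _ hS
  nlinarith

theorem PGF_notMem (T n k : ℕ) (S : Finset ℕ) (hk : k < n) (hB : k ∉ PGF_B T n S) :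
    (k + T + 1 < n) ∧ ∀ i ∈ S, ¬ (k ≤ i ∧ i ≤ k + T + 1) := by
  unfold PGF_B at hB
  rw [Finset.mem_union, not_or] at hB
  obtain ⟨h1, h2⟩ := hB
  rw [Finset.mem_Ico] at h1
  rw [Finset.mem_biUnion] at h2
  refine ⟨by omega, ?_⟩
  rintro i hi ⟨h3, h4⟩
  apply h2
  refine ⟨i, hi, ?_⟩
  rw [Finset.mem_Icc]
  omega

theorem PGF_proof (hPOT : POT_stmt) (hEXB : EXB_stmt) : PGF_stmt := by
  classical
  intro Γ O' c0 χ hΓ hO hne hc0 hχ
  obtain ⟨c, T, hc, hc1, hP⟩ := hPOT Γ O' hΓ hO hne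
  refine ⟨c, hc, hc1, ?_⟩
  intro e he
  obtain ⟨θ1, hθ1, hE⟩ := hEXB e he
  have hT2 : (0 : ℝ) < (T : ℝ) + 2 := by positivity
  obtain ⟨n0, hn0⟩ := exists_nat_ge (2 * ((T : ℝ) + 2) / e)
  refine ⟨min θ1 (e / (2 * ((T : ℝ) + 2))), n0, lt_min hθ1 (by positivity), ?_⟩
  intro n m hn hm g
  have hn' : (n0 : ℝ) ≤ n := by exact_mod_cast hn
  have hnn : (0 : ℝ) ≤ n := Nat.cast_nonneg n
  have hm1 : (m : ℝ) ≤ θ1 * n := hm.trans (mul_le_mul_of_nonneg_right (min_le_left _ _) hnn)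
  have hm2 : (m : ℝ) ≤ e / (2 * ((T : ℝ) + 2)) * n := hm.trans (mul_le_mul_of_nonneg_right (min_le_right _ _) hnn)
  have hcardE := hE n m hm1
  set YS : Finset ℕ → Set ℝ := fun S => {w : ℝ | ∀ i < n, i ∉ S → χ (g * lM w * aM (i : ℝ)) ≠ 0} with hYS
  refine ⟨((Finset.range n).powerset.filter fun S : Finset ℕ => S.card ≤ m).image YS, ?_, ?_, ?_⟩
  · refine le_trans ?_ hcardE
    exact_mod_cast Finset.card_image_le
  · intro w hw
    rw [Set.mem_iUnion₂]
    refine ⟨YS ((Finset.range n).filter fun i : ℕ => χ (g * lM w * aM (i : ℝ)) = 0), ?_, ?_⟩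
    · apply Finset.mem_image_of_mem
      rw [Finset.mem_filter, Finset.mem_powerset]
      exact ⟨Finset.filter_subset _ _, hw⟩
    · intro i hi hiS h0
      apply hiS
      rw [Finset.mem_filter, Finset.mem_range]
      exact ⟨hi, h0⟩
  · intro Y hY
    rw [Finset.mem_image] at hY
    obtain ⟨S, hS, rfl⟩ := hY
    rw [Finset.mem_filter, Finset.mem_powerset] at hS
    refine ⟨PGF_B T n S, ?_, ?_⟩
    · have h1 : ((PGF_B T n S).card : ℝ) ≤ ((T : ℝ) + 2) * (m + 1) := by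
        exact_mod_cast PGF_card T n m S hS.2
      have h2 : ((T : ℝ) + 2) * m ≤ e * n / 2 := by
        calc ((T : ℝ) + 2) * m ≤ ((T : ℝ) + 2) * (e / (2 * ((T : ℝ) + 2)) * n) :=
              mul_le_mul_of_nonneg_left hm2 hT2.le
          _ = e * n / 2 := by field_simp
      have h3 : (T : ℝ) + 2 ≤ e * n / 2 := by
        have h4 : 2 * ((T : ℝ) + 2) / e ≤ n := hn0.trans hn'
        rw [div_le_iff₀ he] at h4
        linarith
      nlinarith
    · intro k hk hkB r hr1 hr2 v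
      obtain ⟨hkn, hkS⟩ := PGF_notMem T n k S hk hkB
      have hr0 : 0 < r := lt_of_lt_of_le (Real.exp_pos _) hr1
      have hs1 : (k : ℝ) ≤ -Real.log r := by
        have h5 := Real.log_le_log hr0 hr2
        rw [Real.log_exp] at h5
        linarith
      have hs2 : -Real.log r ≤ (k : ℝ) + 1 := by
        have h5 := Real.log_le_log (Real.exp_pos _) hr1
        rw [Real.log_exp] at h5
        linarith
      have hk0 : (0 : ℝ) ≤ k := Nat.cast_nonneg k
      have hexp : Real.exp (-(-Real.log r)) = r := by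
        rw [neg_neg, Real.exp_log hr0]
      obtain ⟨x, hx, hx2⟩ := (hP g (-Real.log r) v (hk0.trans hs1)).1
      rw [hexp] at hx hx2
      refine ⟨x, hx, ?_⟩
      rw [Set.disjoint_left]
      intro w hw hwY
      obtain ⟨t, ht, htO⟩ := hx2 w hw
      have ht0 : (k : ℝ) ≤ t := hs1.trans ht.1
      have ht1 : t ≤ (k : ℝ) + 1 + T := by linarith [ht.2]
      have ht00 : 0 ≤ t := hk0.trans ht0
      have hf1 := Nat.floor_le ht00
      have hf2 := Nat.lt_floor_add_one t
      have hi1 : k ≤ ⌊t⌋₊ := Nat.le_floor ht0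
      have hi2 : ⌊t⌋₊ ≤ k + T + 1 := by
        have h6 : ((⌊t⌋₊ : ℕ) : ℝ) ≤ ((k + T + 1 : ℕ) : ℝ) := by
          push_cast
          linarith
        exact_mod_cast h6
      have hiS : ⌊t⌋₊ ∉ S := fun h => hkS _ h ⟨hi1, hi2⟩
      have hne0 := hwY ⌊t⌋₊ (by omega) hiS
      apply hne0
      have h7 := hχ (g * lM w * aM t) ((⌊t⌋₊ : ℝ) - t) 0 htO (by rw [abs_le]; constructor <;> linarith)
        (by rw [abs_zero]; exact hc0.le)
      rw [PGF_lM, mul_one, mul_assoc (g * lM w) (aM t), ← PGF_aM, add_sub_cancel] at h7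
      exact h7

end

end Pool.Agent.FT
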